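import Mathlib
import Pool.Agent.H46.VL.GDefs
import Pool.Agent.H46.VL.Zfc

set_option autoImplicit false

namespace Pool.Agent.Results.MP_4e0375_lc.BelowCofinality

open Pool.H46VL Cardinal

/-- There is a payoff set `A` for which the Gale-Stewart game on any nonempty family
of fewer than `cf (2 ^ ℵ₀)` boards is undetermined. -/
theorem result : ∃ A : Set (ℕ → ℕ), ∀ B : Type, Nonempty B →
    #B < (Cardinal.continuum.{0}).ord.cof → Undetermined B A := main_ZFC

end Pool.Agent.Results.MP_4e0375_lc.BelowCofinality
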