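import Mathlib
import Pool.Agent.H33.MB.Main
import Pool.Agent.H33.MB.Real
import Pool.Agent.H33.MB.Real2
import Pool.Agent.H46.MD.Fin

set_option autoImplicit false

namespace Pool.Agent.Results.MP_4e0375_lc.Independence

open Pool.H46VL

/-- (i) There is a model of ZFC with a payoff set `A` for which the multiboard Gale-Stewart game is
undetermined for every nonempty set of boards, in particular for a set of `2^ℵ₀` boards.
(ii) There is a model of ZFC in which, for every payoff set and every set of at least `2^ℵ₀` boards,
the multiboard Gale-Stewart game is determined.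
(iii), (iv) The meaning of the two sentences, read for all sets with `∈`. -/
theorem result :
    (∃ (M : Type 1) (E : M → M → Prop), BV.IsZFC E ∧ MB.UndetAll E) ∧
    (∃ (M : Type 1) (E : M → M → Prop), BV.IsZFC E ∧ MDI.DetLarge E) ∧
    (MB.UndetAll (fun x y : ZFSet.{0} => x ∈ y) ↔
      ∃ S : Set (ℕ → ℕ), ∀ B : Type, Nonempty B → Undetermined B S) ∧
    (MDI.DetLarge (fun x y : ZFSet.{0} => x ∈ y) ↔
      ∀ (S : Set (ℕ → ℕ)) (B : Type), Cardinal.continuum ≤ Cardinal.mk B →
        OneWins B S ∨ TwoWins B S) :=
  ⟨MB.exists_model, MDI.exists_model, MB.undetAll_V, MB.detLarge_V⟩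

end Pool.Agent.Results.MP_4e0375_lc.Independence
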